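import Pool.Agent.Q326.Sat.Bounded

/-!
# MP_80cf42_co: bounded induced saturation for unions of chains of unequal lengths

For all chain lengths `i_1, …, i_m ≥ 1` that are not all equal there is a constant `C` with
`sat*(n, C_{i_1} + ⋯ + C_{i_m}) ≤ C` for every `n`.
-/

namespace Pool.Agent.Results.MP_80cf42_co.BoundedSaturation

open Pool.Agent.Q326.Sat

/-- Let `i_1, …, i_m` be positive integers, not all equal. There is a constant `C` such that for
every `n` the induced saturation number `sat*(n, C_{i_1} + ⋯ + C_{i_m})` is attained by an induced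
saturated family of subsets of `[n]`, and is at most `C`. -/
theorem result {m : ℕ} (i : Fin m → ℕ) (hpos : ∀ j, 1 ≤ i j) (hne : ∃ a b, i a < i b) :
    ∃ C : ℕ, ∀ n : ℕ,
      (∃ F : Finset (Finset (Fin n)), IsSaturated (Chains i) F ∧
        F.card = satStar n (Chains i)) ∧ satStar n (Chains i) ≤ C := by
  obtain ⟨C, hC⟩ := bounded_saturation i hpos hne
  refine ⟨C, fun n => ?_⟩
  obtain ⟨F, hF, hFC⟩ := hC n
  have hmem : F.card ∈ {t | ∃ F : Finset (Finset (Fin n)), IsSaturated (Chains i) F ∧
      F.card = t} := ⟨F, hF, rfl⟩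
  exact ⟨Nat.sInf_mem ⟨_, hmem⟩, (Nat.sInf_le hmem).trans hFC⟩

end Pool.Agent.Results.MP_80cf42_co.BoundedSaturation
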